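import Mathlib
import Pool.Agent.T6.H7.PF.Defs

set_option autoImplicit false

/-! Project PF, module M2: counting with a basis. -/

namespace Pool.Agent.T6.H7.PF

namespace M2

open Finset InnerProductSpace

/-! ### A sum over the integers -/

/-- `max (|z| - 1) 0`. -/
def wt (z : ℤ) : ℕ := z.natAbs - 1

theorem Icc_succ (N : ℕ) : Icc (-((N + 1 : ℕ) : ℤ)) ((N + 1 : ℕ) : ℤ) =
    insert ((N + 1 : ℕ) : ℤ) (insert (-((N + 1 : ℕ) : ℤ)) (Icc (-(N : ℤ)) (N : ℤ))) := by
  ext z
  rw [mem_insert, mem_insert, mem_Icc, mem_Icc]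
  push_cast
  omega

theorem sum_wt (x : ℝ) (N : ℕ) :
    ∑ z ∈ Icc (-(N : ℤ)) (N : ℤ), x ^ wt z = 1 + 2 * ∑ j ∈ range N, x ^ j := by
  induction N with
  | zero => simp [wt]
  | succ N ih =>
    rw [Icc_succ, sum_insert, sum_insert, ih, sum_range_succ]
    · have h1 : wt ((N + 1 : ℕ) : ℤ) = N := by
        unfold wt
        rw [Int.natAbs_natCast]
        omega
      have h2 : wt (-((N + 1 : ℕ) : ℤ)) = N := by
        unfold wt
        rw [Int.natAbs_neg, Int.natAbs_natCast]
        omega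
      rw [h1, h2]
      ring
    · rw [mem_Icc]
      push_cast
      omega
    · rw [mem_insert, mem_Icc]
      push_cast
      omega

theorem sum_wt_le {t : ℝ} (ht : 0 < t) (N : ℕ) :
    ∑ z ∈ Icc (-(N : ℤ)) (N : ℤ), Real.exp (-(t * wt z)) ≤ 3 + 2 / t := by
  have h1 : ∀ z : ℤ, Real.exp (-(t * wt z)) = Real.exp (-t) ^ wt z := by
    intro z
    rw [← Real.exp_nat_mul]
    congr 1
    ring
  simp only [h1]
  rw [sum_wt]
  have hx0 : 0 < Real.exp (-t) := Real.exp_pos _
  have hx1 : Real.exp (-t) < 1 := by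
    rw [Real.exp_lt_one_iff]
    linarith
  have h2 : ∑ j ∈ range N, Real.exp (-t) ^ j ≤ (1 - Real.exp (-t))⁻¹ := by
    rw [← tsum_geometric_of_lt_one hx0.le hx1]
    exact (summable_geometric_of_lt_one hx0.le hx1).sum_le_tsum _ (fun i _ => by positivity)
  have h3 : (1 - Real.exp (-t))⁻¹ ≤ 1 + 1 / t := by
    have h4 : t + 1 ≤ Real.exp t := Real.add_one_le_exp t
    have h5 : Real.exp (-t) ≤ 1 / (t + 1) := by
      rw [Real.exp_neg, ← one_div]
      exact one_div_le_one_div_of_le (by linarith) h4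
    have h6 : t / (t + 1) ≤ 1 - Real.exp (-t) := by
      have : t / (t + 1) = 1 - 1 / (t + 1) := by
        field_simp
        ring
      linarith
    have h7 : (1 - Real.exp (-t))⁻¹ ≤ (t / (t + 1))⁻¹ := inv_anti₀ (by positivity) h6
    refine h7.trans (le_of_eq ?_)
    field_simp
  have h8 : 2 / t = 2 * (1 / t) := by ring
  rw [h8]
  linarith

theorem wt_floor (u : ℝ) : (wt ⌊u⌋ : ℝ) ≤ |u| := by
  have h1 := Int.floor_le u
  have h2 := Int.lt_floor_add_one u
  unfold wt
  rcases le_total 0 ⌊u⌋ with h | h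
  · have h3 : (⌊u⌋.natAbs : ℝ) = ⌊u⌋ := by
      rw [Nat.cast_natAbs, abs_of_nonneg h]
    have h4 : ((⌊u⌋.natAbs - 1 : ℕ) : ℝ) ≤ ⌊u⌋.natAbs := by exact_mod_cast Nat.sub_le _ _
    rw [h3] at h4
    exact h4.trans (h1.trans (le_abs_self u))
  · have h3 : (⌊u⌋.natAbs : ℝ) = -⌊u⌋ := by
      rw [Nat.cast_natAbs, abs_of_nonpos h]
      push_cast
      rfl
    rcases Nat.eq_zero_or_pos ⌊u⌋.natAbs with h0 | h0
    · rw [h0]
      simp
    · have h4 : ((⌊u⌋.natAbs - 1 : ℕ) : ℝ) = ⌊u⌋.natAbs - 1 := by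
        rw [Nat.cast_sub h0, Nat.cast_one]
      rw [h4, h3]
      have := neg_abs_le u
      linarith

/-! ### Gram-Schmidt coordinates -/

variable {n k : ℕ} {b : Fin k → E n}

/-- The coordinate. -/
noncomputable def co (b : Fin k → E n) (x : E n) (i : Fin k) : ℝ :=
  inner ℝ (gramSchmidt ℝ b i) x / gsn b i ^ 2

theorem gsn_pos (hb : LinearIndependent ℝ b) (i : Fin k) : 0 < gsn b i := by
  unfold gsn
  rw [norm_pos_iff]
  exact gramSchmidt_ne_zero i hb

theorem inner_self_b (b : Fin k → E n) (i : Fin k) :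
    inner ℝ (gramSchmidt ℝ b i) (b i) = gsn b i ^ 2 := by
  conv_lhs => rw [gramSchmidt_def'' ℝ b i]
  rw [inner_add_right, inner_sum, real_inner_self_eq_norm_sq]
  have h1 : ∑ j ∈ Iio i, inner ℝ (gramSchmidt ℝ b i)
      ((inner ℝ (gramSchmidt ℝ b j) (b i) / ((‖gramSchmidt ℝ b j‖ : ℝ) : ℝ) ^ 2) •
        gramSchmidt ℝ b j) = 0 := by
    apply sum_eq_zero
    intro j hj
    rw [mem_Iio] at hj
    rw [inner_smul_right, gramSchmidt_orthogonal ℝ b hj.ne', mul_zero]
  exact (congrArg (fun s => ‖gramSchmidt ℝ b i‖ ^ 2 + s) h1).trans (add_zero _)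

theorem co_sub (x y : E n) (i : Fin k) : co b (x - y) i = co b x i - co b y i := by
  unfold co
  rw [inner_sub_right, sub_div]

/-- The coordinate at the top index. -/
theorem co_top (hb : LinearIndependent ℝ b) {c : Fin k → ℤ} {i : Fin k}
    (hc : ∀ j, i < j → c j = 0) : co b (∑ j, c j • b j) i = c i := by
  unfold co
  rw [inner_sum, Finset.sum_eq_single i]
  · rw [← Int.cast_smul_eq_zsmul ℝ, inner_smul_right, inner_self_b]
    have := gsn_pos hb i
    field_simp
  · intro j _ hji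
    rcases lt_or_gt_of_ne hji with h | h
    · rw [← Int.cast_smul_eq_zsmul ℝ, inner_smul_right, gramSchmidt_inv_triangular ℝ b h, mul_zero]
    · rw [hc j h, zero_smul, inner_zero_right]
  · intro h
    exact absurd (mem_univ i) h

/-- The integer parts of the coordinates determine the vector. -/
theorem inj (hb : LinearIndependent ℝ b) {c c' : Fin k → ℤ}
    (h : ∀ i, ⌊co b (∑ j, c j • b j) i⌋ = ⌊co b (∑ j, c' j • b j) i⌋) : c = c' := by
  by_contra hne
  have h1 : (univ.filter fun i => c i ≠ c' i).Nonempty := by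
    obtain ⟨i, hi⟩ := Function.ne_iff.1 hne
    exact ⟨i, mem_filter.2 ⟨mem_univ _, hi⟩⟩
  set i := (univ.filter fun i => c i ≠ c' i).max' h1 with hi
  have hi1 : c i ≠ c' i := (mem_filter.1 (max'_mem _ h1)).2
  have hi2 : ∀ j, i < j → c j - c' j = 0 := by
    intro j hj
    by_contra h2
    have h3 : j ∈ univ.filter fun i => c i ≠ c' i :=
      mem_filter.2 ⟨mem_univ _, fun h4 => h2 (by rw [h4, sub_self])⟩
    exact absurd (le_max' _ j h3) (not_le.2 hj)
  have h2 := co_top hb (c := fun j => c j - c' j) (i := i) hi2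
  have h3 : ∑ j, (c j - c' j) • b j = ∑ j, c j • b j - ∑ j, c' j • b j := by
    rw [← sum_sub_distrib]
    exact sum_congr rfl fun j _ => sub_smul _ _ _
  rw [h3, co_sub] at h2
  have h4 := h i
  have h5 := Int.abs_sub_lt_one_of_floor_eq_floor h4
  rw [h2] at h5
  have h6 : |c i - c' i| < 1 := by exact_mod_cast h5
  rw [Int.abs_lt_one_iff] at h6
  exact hi1 (by omega)

/-- Bessel's inequality. -/
theorem bessel (hb : LinearIndependent ℝ b) (x : E n) :
    ∑ i, (gsn b i * |co b x i|) ≤ Real.sqrt k * ‖x‖ := by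
  have h1 := (gramSchmidtNormed_orthonormal hb).sum_inner_products_le x (s := univ)
  have h2 : ∀ i, ‖inner ℝ (gramSchmidtNormed ℝ b i) x‖ = gsn b i * |co b x i| := by
    intro i
    have hg := gsn_pos hb i
    have h3 : inner ℝ (gramSchmidtNormed ℝ b i) x =
        (gsn b i)⁻¹ * inner ℝ (gramSchmidt ℝ b i) x := by
      unfold gramSchmidtNormed gsn
      rw [real_inner_smul_left]
      rfl
    rw [h3, Real.norm_eq_abs, abs_mul, abs_of_pos (inv_pos.2 hg)]
    unfold co
    rw [abs_div, abs_of_pos (pow_pos hg 2)]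
    field_simp
  simp only [h2] at h1
  have h4 := sq_sum_le_card_mul_sum_sq (s := (univ : Finset (Fin k)))
    (f := fun i => gsn b i * |co b x i|)
  rw [card_univ, Fintype.card_fin] at h4
  have h5 : 0 ≤ ∑ i, (gsn b i * |co b x i|) :=
    sum_nonneg fun i _ => mul_nonneg (gsn_pos hb i).le (abs_nonneg _)
  rw [← Real.sqrt_sq h5, ← Real.sqrt_sq (norm_nonneg x), ← Real.sqrt_mul (Nat.cast_nonneg k)]
  apply Real.sqrt_le_sqrt
  exact h4.trans (mul_le_mul_of_nonneg_left h1 (Nat.cast_nonneg k))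

end M2

open Finset M2 in
theorem m2 : StmtM2 := by
  intro n k b r hk hb hr
  have hk0 : (0 : ℝ) < k := by exact_mod_cast hk
  have hsk : 0 < Real.sqrt k := Real.sqrt_pos.2 hk0
  set S : Set (Fin k → ℤ) := {c : Fin k → ℤ | ‖∑ i, c i • b i‖ ≤ r} with hS
  set φ : (Fin k → ℤ) → Fin k → ℤ := fun c i => ⌊co b (∑ j, c j • b j) i⌋ with hφ
  have hinj : Set.InjOn φ S := by
    intro c _ c' _ h
    exact inj hb fun i => congrFun h i
  have hw : ∀ c ∈ S, ∑ i, gsn b i * (wt (φ c i) : ℝ) ≤ Real.sqrt k * r := by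
    intro c hc
    have h1 := bessel hb (∑ j, c j • b j)
    have h2 : Real.sqrt k * ‖∑ j, c j • b j‖ ≤ Real.sqrt k * r :=
      mul_le_mul_of_nonneg_left hc hsk.le
    refine le_trans (sum_le_sum fun i _ => ?_) (h1.trans h2)
    exact mul_le_mul_of_nonneg_left (wt_floor _) (gsn_pos hb i).le
  -- the box
  obtain ⟨N, hN⟩ : ∃ N : ℕ, ∀ i, Real.sqrt k * r / gsn b i + 1 ≤ N := by
    obtain ⟨M, hM⟩ : ∃ M : ℝ, ∀ i, Real.sqrt k * r / gsn b i + 1 ≤ M := by
      refine ⟨∑ i, (Real.sqrt k * r / gsn b i + 1), fun i => ?_⟩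
      apply single_le_sum (f := fun i => Real.sqrt k * r / gsn b i + 1) _ (mem_univ i)
      intro j _
      have := gsn_pos hb j
      positivity
    exact ⟨⌈M⌉₊, fun i => (hM i).trans (Nat.le_ceil M)⟩
  set X : Finset (Fin k → ℤ) := (Fintype.piFinset fun _ => Icc (-(N : ℤ)) (N : ℤ)) with hX
  set Y : Finset (Fin k → ℤ) :=
    X.filter fun z => ∑ i, gsn b i * (wt (z i) : ℝ) ≤ Real.sqrt k * r with hY
  have hmaps : Set.MapsTo φ S Y := by
    intro c hc
    have h1 := hw c hc
    rw [mem_coe, hY, mem_filter]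
    refine ⟨?_, h1⟩
    rw [hX, Fintype.mem_piFinset]
    intro i
    have hg := gsn_pos hb i
    have h2 : gsn b i * (wt (φ c i) : ℝ) ≤ Real.sqrt k * r := by
      refine le_trans ?_ h1
      apply single_le_sum (f := fun i => gsn b i * (wt (φ c i) : ℝ)) _ (mem_univ i)
      intro j _
      have := gsn_pos hb j
      positivity
    have h3 : (wt (φ c i) : ℝ) ≤ Real.sqrt k * r / gsn b i := by
      rw [le_div_iff₀ hg]
      linarith
    have h4 : (wt (φ c i) : ℝ) + 1 ≤ N := by linarith [hN i]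
    have h5 : wt (φ c i) + 1 ≤ N := by exact_mod_cast h4
    unfold wt at h5
    rw [mem_Icc]
    omega
  have hfin : S.Finite := Set.Finite.of_finite_image (Y.finite_toSet.subset hmaps.image_subset) hinj
  refine ⟨hfin, ?_⟩
  have hcard : S.ncard ≤ Y.card := by
    rw [← Set.ncard_coe_finset]
    exact Set.ncard_le_ncard_of_injOn φ hmaps hinj Y.finite_toSet
  have h1 : (S.ncard : ℝ) ≤ Y.card := by exact_mod_cast hcard
  refine h1.trans ?_
  -- the exponential bound
  set t : Fin k → ℝ := fun i => Real.sqrt k * gsn b i / r with ht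
  have ht0 : ∀ i, 0 < t i := by
    intro i
    have := gsn_pos hb i
    simp only [ht]
    positivity
  have h2 : (Y.card : ℝ) ≤ ∑ z ∈ Y, Real.exp k * ∏ i, Real.exp (-(t i * wt (z i))) := by
    rw [card_eq_sum_ones, Nat.cast_sum]
    apply sum_le_sum
    intro z hz
    rw [hY, mem_filter] at hz
    rw [← Real.exp_sum, ← Real.exp_add, Nat.cast_one, Real.one_le_exp_iff]
    have h3 : ∑ i, t i * (wt (z i) : ℝ) = Real.sqrt k / r * ∑ i, gsn b i * (wt (z i) : ℝ) := by
      rw [mul_sum]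
      apply sum_congr rfl
      intro i _
      simp only [ht]
      ring
    have h4 : Real.sqrt k / r * ∑ i, gsn b i * (wt (z i) : ℝ) ≤
        Real.sqrt k / r * (Real.sqrt k * r) :=
      mul_le_mul_of_nonneg_left hz.2 (by positivity)
    have h5 : Real.sqrt k / r * (Real.sqrt k * r) = k := by
      have h6 : Real.sqrt k * Real.sqrt k = k := Real.mul_self_sqrt hk0.le
      calc Real.sqrt k / r * (Real.sqrt k * r) = (Real.sqrt k * Real.sqrt k) * (r / r) := by ring
        _ = k := by rw [h6, div_self hr.ne', mul_one]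
    rw [sum_neg_distrib, h3]
    linarith
  have h3 : ∑ z ∈ Y, Real.exp k * ∏ i, Real.exp (-(t i * wt (z i))) ≤
      ∑ z ∈ X, Real.exp k * ∏ i, Real.exp (-(t i * wt (z i))) := by
    apply sum_le_sum_of_subset_of_nonneg (filter_subset _ _)
    intro z _ _
    positivity
  have h4 : ∑ z ∈ X, Real.exp k * ∏ i, Real.exp (-(t i * wt (z i))) =
      Real.exp k * ∏ i, ∑ z ∈ Icc (-(N : ℤ)) (N : ℤ), Real.exp (-(t i * wt z)) := by
    rw [← mul_sum]
    congr 1
    rw [prod_univ_sum]
  refine h2.trans (h3.trans (le_of_eq_of_le h4 ?_))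
  apply mul_le_mul_of_nonneg_left _ (Real.exp_pos _).le
  apply prod_le_prod
  · intro i _
    exact sum_nonneg fun z _ => (Real.exp_pos _).le
  · intro i _
    refine (sum_wt_le (ht0 i) N).trans (le_of_eq ?_)
    have hg := gsn_pos hb i
    congr 1
    simp only [ht]
    field_simp

end Pool.Agent.T6.H7.PF
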